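import Pool.Agent.Y229.MS.Stm
import Pool.Agent.W417.MT.Free
import Pool.Agent.W21.MTSub

/-!
# (ONEA) The class of the jets of `f + y z` with `ord y = i`
-/

set_option autoImplicit false

namespace Pool.Agent.Y366.MS

open MvPolynomial Pool.Agent.W428.MOT
open Pool.Agent.W375.MG (JetG constr_W)
open Pool.Agent.Y229.MS

variable {K : Type} [Field K] {n N : ℕ}

/-- the coefficients of `y` -/
noncomputable def Yc (w : Pt K (Fin (n + 2) × Fin (N + 1))) (j : ℕ) : AlgebraicClosure K :=
  PowerSeries.coeff j (arc w (Fin.natAdd n 0))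

/-- the coefficients of `z` -/
noncomputable def Zc (w : Pt K (Fin (n + 2) × Fin (N + 1))) (j : ℕ) : AlgebraicClosure K :=
  PowerSeries.coeff j (arc w (Fin.natAdd n 1))

/-- the coefficients of `f (x)` -/
noncomputable def Fc (f : MvPolynomial (Fin n) K) (w : Pt K (Fin (n + 2) × Fin (N + 1)))
    (j : ℕ) : AlgebraicClosure K :=
  PowerSeries.coeff j (aeval (fun a => arc w (Fin.castAdd 2 a)) f)

theorem isPF_Yc (j : ℕ) : IsPF (fun w : Pt K (Fin (n + 2) × Fin (N + 1)) => Yc w j) :=
  isPA_arc _ j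

theorem isPF_Zc (j : ℕ) : IsPF (fun w : Pt K (Fin (n + 2) × Fin (N + 1)) => Zc w j) :=
  isPA_arc _ j

theorem isPF_Fc (f : MvPolynomial (Fin n) K) (j : ℕ) :
    IsPF (fun w : Pt K (Fin (n + 2) × Fin (N + 1)) => Fc f w j) :=
  IsPA.aeval (fun a z => arc z (Fin.castAdd 2 a)) (fun _ => isPA_arc _) f j

theorem Yc_of_lt (w : Pt K (Fin (n + 2) × Fin (N + 1))) (j : ℕ) (hj : j < N + 1) :
    Yc w j = w (Fin.natAdd n 0, ⟨j, hj⟩) := by
  simp only [Yc, arc, PowerSeries.coeff_mk, dif_pos hj]

theorem Zc_of_lt (w : Pt K (Fin (n + 2) × Fin (N + 1))) (j : ℕ) (hj : j < N + 1) :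
    Zc w j = w (Fin.natAdd n 1, ⟨j, hj⟩) := by
  simp only [Zc, arc, PowerSeries.coeff_mk, dif_pos hj]

theorem natAdd01 : (Fin.natAdd n (0 : Fin 2)) ≠ Fin.natAdd n 1 := by
  intro h
  have := congrArg Fin.val h
  simp at this

theorem castAdd_ne (a : Fin n) (b : Fin 2) : Fin.castAdd 2 a ≠ Fin.natAdd n b := by
  intro h
  have := congrArg Fin.val h
  simp only [Fin.val_castAdd, Fin.val_natAdd] at this
  have := a.2
  omega

theorem arc_congr {m : ℕ} (w w' : Pt K (Fin m × Fin (N + 1))) (a : Fin m)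
    (h : ∀ j, w (a, j) = w' (a, j)) : arc w a = arc w' a := by
  ext j
  simp only [arc, PowerSeries.coeff_mk, h]

theorem aeval_addyz (f : MvPolynomial (Fin n) K) (w : Pt K (Fin (n + 2) × Fin (N + 1))) :
    aeval (arc w) (addyz f) = aeval (fun a => arc w (Fin.castAdd 2 a)) f +
      arc w (Fin.natAdd n 0) * arc w (Fin.natAdd n 1) := by
  rw [addyz, map_add, map_mul, aeval_X, aeval_X, aeval_rename]
  rfl

/-- the coefficient of `t ^ (i + l)` if `ord y ≥ i` -/
noncomputable def hh (f : MvPolynomial (Fin n) K) (i l : ℕ)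
    (w : Pt K (Fin (n + 2) × Fin (N + 1))) : AlgebraicClosure K :=
  Fc f w (i + l) + ∑ m ∈ Finset.range (l + 1), Yc w (i + l - m) * Zc w m

/-- the part of `hh` without `z_l` -/
noncomputable def bb (f : MvPolynomial (Fin n) K) (i l : ℕ)
    (w : Pt K (Fin (n + 2) × Fin (N + 1))) : AlgebraicClosure K :=
  Fc f w (i + l) + ∑ m ∈ Finset.range l, Yc w (i + l - m) * Zc w m

theorem isPF_hh (f : MvPolynomial (Fin n) K) (i l : ℕ) :
    IsPF (fun w : Pt K (Fin (n + 2) × Fin (N + 1)) => hh f i l w) :=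
  (isPF_Fc f _).add (IsPF.sum _ _ fun _ _ => (isPF_Yc _).mul (isPF_Zc _))

theorem isPF_bb (f : MvPolynomial (Fin n) K) (i l : ℕ) :
    IsPF (fun w : Pt K (Fin (n + 2) × Fin (N + 1)) => bb f i l w) :=
  (isPF_Fc f _).add (IsPF.sum _ _ fun _ _ => (isPF_Yc _).mul (isPF_Zc _))

theorem hh_eq (f : MvPolynomial (Fin n) K) (i l : ℕ) (w : Pt K (Fin (n + 2) × Fin (N + 1))) :
    hh f i l w = Yc w i * Zc w l + bb f i l w := by
  rw [hh, bb, Finset.sum_range_succ, Nat.add_sub_cancel]
  ring

theorem coeff_small (f : MvPolynomial (Fin n) K) (i j : ℕ)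
    (w : Pt K (Fin (n + 2) × Fin (N + 1))) (hw : ∀ j < i, Yc w j = 0) (hj : j < i) :
    PowerSeries.coeff j (aeval (arc w) (addyz f)) = Fc f w j := by
  rw [aeval_addyz, map_add, PowerSeries.coeff_mul, Finset.sum_eq_zero, add_zero]
  · rfl
  · intro p hp
    have := Finset.HasAntidiagonal.mem_antidiagonal.1 hp
    have h2 : PowerSeries.coeff p.1 (arc w (Fin.natAdd n 0)) = 0 := hw p.1 (by omega)
    rw [h2, zero_mul]

theorem coeff_big (f : MvPolynomial (Fin n) K) (i l : ℕ)
    (w : Pt K (Fin (n + 2) × Fin (N + 1))) (hw : ∀ j < i, Yc w j = 0) :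
    PowerSeries.coeff (i + l) (aeval (arc w) (addyz f)) = hh f i l w := by
  rw [aeval_addyz, mul_comm, map_add, PowerSeries.coeff_mul, hh,
    Finset.Nat.sum_antidiagonal_eq_sum_range_succ_mk]
  congr 1
  change ∑ m ∈ Finset.range (i + l + 1), Zc w m * Yc w (i + l - m) = _
  rw [show i + l + 1 = (l + 1) + i by ring, Finset.sum_range_add,
    Finset.sum_eq_zero (s := Finset.range i), add_zero]
  · exact Finset.sum_congr rfl fun m _ => mul_comm _ _
  · intro m hm
    have hm' := Finset.mem_range.1 hm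
    rw [hw _ (by omega), mul_zero]

/-- the conditions which do not involve `z` -/
def Base (f : MvPolynomial (Fin n) K) (W : Set (Pt K (Fin n))) (i : ℕ) :
    Set (Pt K (Fin (n + 2) × Fin (N + 1))) :=
  {w | (fun a => w (Fin.castAdd 2 a, 0)) ∈ W ∧ (∀ j < i, Fc f w j = 0) ∧
    (∀ j < i, Yc w j = 0) ∧ Yc w i ≠ 0}

/-- the conditions on the last coefficients -/
def EE (E : Set (AlgebraicClosure K)) (q l : ℕ) : Set (AlgebraicClosure K) :=
  if l < q then {0} else E

theorem EE_lt (E : Set (AlgebraicClosure K)) (q l : ℕ) (h : l < q) : EE E q l = {0} :=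
  if_pos h

theorem EE_self (E : Set (AlgebraicClosure K)) (q : ℕ) : EE E q q = E :=
  if_neg (lt_irrefl q)

theorem ce_EE {E : Set (AlgebraicClosure K)} (hE : CE E) (q l : ℕ) : CE (EE E q l) := by
  unfold EE
  split_ifs
  · exact ce_zero
  · exact hE

/-- the intermediate sets -/
noncomputable def St (f : MvPolynomial (Fin n) K) (W : Set (Pt K (Fin n)))
    (E : Set (AlgebraicClosure K)) (i q t : ℕ) : Set (Pt K (Fin (n + 2) × Fin (N + 1))) :=
  {w | w ∈ Base f W i ∧ ∀ l < q + 1, (if l < t then hh f i l w else Zc w l) ∈ EE E q l}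

theorem constr_Base (f : MvPolynomial (Fin n) K) {W : Set (Pt K (Fin n))} (hW : Constr W)
    (i : ℕ) : Constr (Base (N := N) f W i) := by
  unfold Base
  exact Constr.and (constr_W hW _ fun a => IsPF.coord _)
    (Constr.and (Constr.allLt _ fun j _ => Constr.eqz (isPF_Fc f j))
      (Constr.and (Constr.allLt _ fun j _ => Constr.eqz (isPF_Yc j))
        (Constr.eqz (isPF_Yc i)).not))

theorem constr_St (f : MvPolynomial (Fin n) K) {W : Set (Pt K (Fin n))} (hW : Constr W)
    {E : Set (AlgebraicClosure K)} (hE : CE E) (i q t : ℕ) :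
    Constr (St (N := N) f W E i q t) := by
  unfold St
  refine Constr.and (constr_Base f hW i) (Constr.allLt _ fun l _ => ?_)
  split_ifs with h
  · exact ce_EE hE q l _ (isPF_hh f i l)
  · exact ce_EE hE q l _ (isPF_Zc l)

theorem St_top (f : MvPolynomial (Fin n) K) (W : Set (Pt K (Fin n)))
    (E : Set (AlgebraicClosure K)) (i q : ℕ) (hN : N = i + q) :
    JetG (addyz f) (Wyz W) E N ∩ Yi n i N = St f W E i q (q + 1) := by
  ext w
  constructor
  · rintro ⟨⟨h1, h2, h3⟩, h4, h5⟩
    have h6 : ∀ j < i, Yc w j = 0 := fun j hj => by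
      rw [Yc_of_lt w j (by omega)]
      exact h4 _ hj
    refine ⟨⟨h1, ?_, h6, ?_⟩, ?_⟩
    · intro j hj
      rw [← coeff_small f i j w h6 hj]
      exact h2 j (by omega)
    · rw [Yc_of_lt w i (by omega)]
      exact h5 _ rfl
    · intro l hl
      rw [if_pos hl, ← coeff_big f i l w h6]
      by_cases hlq : l < q
      · rw [EE_lt _ _ _ hlq]
        exact h2 _ (by omega)
      · have : l = q := by omega
        subst this
        rw [EE_self, ← hN]
        exact h3
  · rintro ⟨⟨h1, h2, h3, h4⟩, h5⟩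
    refine ⟨⟨h1, ?_, ?_⟩, ?_, ?_⟩
    · intro j hj
      by_cases hji : j < i
      · rw [coeff_small f i j w h3 hji]
        exact h2 j hji
      · obtain ⟨l, rfl⟩ := Nat.exists_eq_add_of_le (not_lt.1 hji)
        rw [coeff_big f i l w h3]
        have := h5 l (by omega)
        rwa [if_pos (by omega), EE_lt _ _ _ (by omega)] at this
    · have := h5 q (by omega)
      rw [if_pos (by omega), EE_self, ← coeff_big f i q w h3, ← hN] at this
      exact this
    · intro j hj
      have := h3 j hj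
      rwa [Yc_of_lt w j (by omega)] at this
    · intro j hj
      have := h4
      rw [Yc_of_lt w i (by omega)] at this
      have h6 : j = ⟨i, by omega⟩ := Fin.ext hj
      rw [h6]
      exact this

/-! ### changing one coordinate -/

section upd

variable (w : Pt K (Fin (n + 2) × Fin (N + 1))) (t : Fin (N + 1)) (c : AlgebraicClosure K)

theorem Yc_upd (j : ℕ) : Yc (Function.update w (Fin.natAdd n 1, t) c) j = Yc w j := by
  unfold Yc
  rw [arc_congr _ w]
  intro j
  rw [Function.update_of_ne]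
  intro h
  exact natAdd01 (Prod.ext_iff.1 h).1

theorem Fc_upd (f : MvPolynomial (Fin n) K) (j : ℕ) :
    Fc f (Function.update w (Fin.natAdd n 1, t) c) j = Fc f w j := by
  unfold Fc
  congr 3
  funext a
  apply arc_congr
  intro j
  rw [Function.update_of_ne]
  intro h
  exact castAdd_ne _ _ (Prod.ext_iff.1 h).1

theorem Zc_upd (j : ℕ) (hj : j ≠ t) :
    Zc (Function.update w (Fin.natAdd n 1, t) c) j = Zc w j := by
  by_cases h : j < N + 1
  · rw [Zc_of_lt _ _ h, Zc_of_lt _ _ h, Function.update_of_ne]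
    intro h'
    exact hj (congrArg Fin.val (Prod.ext_iff.1 h').2)
  · simp only [Zc, arc, PowerSeries.coeff_mk, dif_neg h]

theorem Zc_upd_self : Zc (Function.update w (Fin.natAdd n 1, t) c) t = c := by
  rw [Zc_of_lt _ _ t.2, Function.update_self]

theorem hh_upd (f : MvPolynomial (Fin n) K) (i l : ℕ) (hl : l < t) :
    hh f i l (Function.update w (Fin.natAdd n 1, t) c) = hh f i l w := by
  unfold hh
  rw [Fc_upd]
  congr 1
  refine Finset.sum_congr rfl fun m hm => ?_
  have := Finset.mem_range.1 hm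
  rw [Yc_upd, Zc_upd _ _ _ _ (by omega)]

theorem bb_upd (f : MvPolynomial (Fin n) K) (i l : ℕ) (hl : l ≤ t) :
    bb f i l (Function.update w (Fin.natAdd n 1, t) c) = bb f i l w := by
  unfold bb
  rw [Fc_upd]
  congr 1
  refine Finset.sum_congr rfl fun m hm => ?_
  have := Finset.mem_range.1 hm
  rw [Yc_upd, Zc_upd _ _ _ _ (by omega)]

theorem Base_upd (f : MvPolynomial (Fin n) K) (W : Set (Pt K (Fin n))) (i : ℕ) :
    Function.update w (Fin.natAdd n 1, t) c ∈ Base f W i ↔ w ∈ Base f W i := by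
  unfold Base
  simp only [Set.mem_ofPred_eq, Fc_upd, Yc_upd]
  have : (fun a => Function.update w (Fin.natAdd n 1, t) c (Fin.castAdd 2 a, 0)) =
      fun a => w (Fin.castAdd 2 a, 0) := by
    funext a
    rw [Function.update_of_ne]
    intro h
    exact castAdd_ne _ _ (Prod.ext_iff.1 h).1
  rw [this]

end upd

theorem St_step {R : Type} [CommRing R] (M : Meas K R) (f : MvPolynomial (Fin n) K)
    {W : Set (Pt K (Fin n))} (hW : Constr W) {E : Set (AlgebraicClosure K)} (hE : CE E)
    (i q t : ℕ) (hN : N = i + q) (ht : t ≤ q) :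
    M.χ _ (St (N := N) f W E i q (t + 1)) = M.χ _ (St (N := N) f W E i q t) := by
  classical
  have htN : t < N + 1 := by omega
  refine Pool.Agent.W21.MTSub.main M _ _ (Fin.natAdd n 1, (⟨t, htN⟩ : Fin (N + 1)))
    (fun w => Yc w i) (fun w => bb f i t w) (constr_St f hW hE i q (t + 1))
    (constr_St f hW hE i q t) (isPF_Yc i) (isPF_bb f i t) (fun z w => Yc_upd _ _ _ _)
    (fun z w => bb_upd _ _ _ _ _ _ le_rfl) (fun z hz => hz.1.2.2.2) (fun z hz => hz.1.2.2.2) ?_
  intro w _
  have hZ : w (Fin.natAdd n 1, (⟨t, htN⟩ : Fin (N + 1))) = Zc w t := (Zc_of_lt w t htN).symm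
  rw [hZ, ← hh_eq]
  unfold St
  simp only [Set.mem_ofPred_eq, Base_upd]
  refine and_congr_right fun _ => forall₂_congr fun l _ => ?_
  rcases lt_trichotomy l t with h | h | h
  · rw [if_pos (by omega), if_pos h, hh_upd _ _ _ _ _ _ h]
  · subst h
    rw [if_pos (by omega), if_neg (lt_irrefl _)]
    have := Zc_upd_self w ⟨l, htN⟩ (hh f i l w)
    simp only at this
    rw [this]
  · rw [if_neg (by omega), if_neg (by omega), Zc_upd _ _ _ _ (by simp only; omega)]

theorem St_all {R : Type} [CommRing R] (M : Meas K R) (f : MvPolynomial (Fin n) K)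
    {W : Set (Pt K (Fin n))} (hW : Constr W) {E : Set (AlgebraicClosure K)} (hE : CE E)
    (i q : ℕ) (hN : N = i + q) :
    ∀ t ≤ q + 1, M.χ _ (St (N := N) f W E i q t) = M.χ _ (St (N := N) f W E i q 0) := by
  intro t
  induction t with
  | zero => intro _; rfl
  | succ t ih => intro ht; rw [St_step M f hW hE i q t hN (by omega), ih (by omega)]

/-! ### the product -/

/-- the conditions without `y_i ≠ 0` -/
def Sf (f : MvPolynomial (Fin n) K) (W : Set (Pt K (Fin n)))
    (E : Set (AlgebraicClosure K)) (i q : ℕ) : Set (Pt K (Fin (n + 2) × Fin (N + 1))) :=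
  {w | (fun a => w (Fin.castAdd 2 a, 0)) ∈ W ∧ (∀ j < i, Fc f w j = 0) ∧
    (∀ j < i, Yc w j = 0) ∧ ∀ l < q + 1, Zc w l ∈ EE E q l}

/-- all coefficients of `y` and `z` vanish -/
def Sz (f : MvPolynomial (Fin n) K) (W : Set (Pt K (Fin n))) (i : ℕ) :
    Set (Pt K (Fin (n + 2) × Fin (N + 1))) :=
  {w | (fun a => w (Fin.castAdd 2 a, 0)) ∈ W ∧ (∀ j < i, Fc f w j = 0) ∧
    (∀ j, w (Fin.natAdd n 0, j) = 0) ∧ ∀ j, w (Fin.natAdd n 1, j) = 0}

/-- the free coordinates -/
def F1 (n N i q : ℕ) : Finset (Fin (n + 2) × Fin (N + 1)) :=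
  ((Finset.univ.filter fun j : Fin (N + 1) => i < (j : ℕ)).image fun j => (Fin.natAdd n 0, j)) ∪
    ((Finset.univ.filter fun j : Fin (N + 1) => q < (j : ℕ)).image fun j => (Fin.natAdd n 1, j))

theorem mem_F1 (i q : ℕ) (p : Fin (n + 2) × Fin (N + 1)) : p ∈ F1 n N i q ↔
    (p.1 = Fin.natAdd n 0 ∧ i < (p.2 : ℕ)) ∨ (p.1 = Fin.natAdd n 1 ∧ q < (p.2 : ℕ)) := by
  simp only [F1, Finset.mem_union, Finset.mem_image, Finset.mem_filter, Finset.mem_univ,
    true_and]
  constructor
  · rintro (⟨j, hj, rfl⟩ | ⟨j, hj, rfl⟩)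
    · exact Or.inl ⟨rfl, hj⟩
    · exact Or.inr ⟨rfl, hj⟩
  · rintro (⟨h1, h2⟩ | ⟨h1, h2⟩)
    · exact Or.inl ⟨p.2, h2, Prod.ext h1.symm rfl⟩
    · exact Or.inr ⟨p.2, h2, Prod.ext h1.symm rfl⟩

theorem card_gt (N i : ℕ) :
    (Finset.univ.filter fun j : Fin (N + 1) => i < (j : ℕ)).card = N - i := by
  have h2 : (Finset.univ.filter fun j : Fin (N + 1) => i < (j : ℕ)).card =
      (Finset.Ioo i (N + 1)).card := by
    rw [← Finset.card_map Fin.valEmbedding]
    congr 1
    ext a
    simp only [Finset.mem_map, Finset.mem_filter, Finset.mem_univ, true_and,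
      Fin.valEmbedding_apply, Finset.mem_Ioo]
    constructor
    · rintro ⟨b, hb, rfl⟩
      exact ⟨hb, b.2⟩
    · rintro ⟨h1, h2⟩
      exact ⟨⟨a, h2⟩, h1, rfl⟩
  rw [h2, Nat.card_Ioo]
  omega

theorem card_F1 (i q : ℕ) (hN : N = i + q) : (F1 n N i q).card = N := by
  rw [F1, Finset.card_union_of_disjoint, Finset.card_image_of_injective,
    Finset.card_image_of_injective, card_gt, card_gt]
  · omega
  · intro a b h
    exact (Prod.ext_iff.1 h).2
  · intro a b h
    exact (Prod.ext_iff.1 h).2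
  · rw [Finset.disjoint_left]
    intro p hp hp'
    obtain ⟨a, _, rfl⟩ := Finset.mem_image.1 hp
    obtain ⟨b, _, h⟩ := Finset.mem_image.1 hp'
    exact natAdd01 (Prod.ext_iff.1 h).1.symm

theorem constr_Sf (f : MvPolynomial (Fin n) K) {W : Set (Pt K (Fin n))} (hW : Constr W)
    {E : Set (AlgebraicClosure K)} (hE : CE E) (i q : ℕ) :
    Constr (Sf (N := N) f W E i q) := by
  unfold Sf
  exact Constr.and (constr_W hW _ fun a => IsPF.coord _)
    (Constr.and (Constr.allLt _ fun j _ => Constr.eqz (isPF_Fc f j))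
      (Constr.and (Constr.allLt _ fun j _ => Constr.eqz (isPF_Yc j))
        (Constr.allLt _ fun l _ => ce_EE hE q l _ (isPF_Zc l))))

theorem constr_Sz (f : MvPolynomial (Fin n) K) {W : Set (Pt K (Fin n))} (hW : Constr W)
    (i : ℕ) : Constr (Sz (N := N) f W i) := by
  unfold Sz
  exact Constr.and (constr_W hW _ fun a => IsPF.coord _)
    (Constr.and (Constr.allLt _ fun j _ => Constr.eqz (isPF_Fc f j))
      (Constr.and (Constr.all fun j => Constr.eqz (IsPF.coord _))
        (Constr.all fun j => Constr.eqz (IsPF.coord _))))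

theorem constr_Tl (f : MvPolynomial (Fin n) K) {W : Set (Pt K (Fin n))} (hW : Constr W)
    (i : ℕ) : Constr (Tl f W i N) := by
  unfold Tl
  exact Constr.and (constr_W hW _ fun a => IsPF.coord _)
    (Constr.allLt _ fun j _ => Constr.eqz
      (IsPA.aeval (fun i z => arc z i) (fun i => isPA_arc i) f j))

theorem Fc_congr (f : MvPolynomial (Fin n) K) (w w' : Pt K (Fin (n + 2) × Fin (N + 1)))
    (h : ∀ a j, w (Fin.castAdd 2 a, j) = w' (Fin.castAdd 2 a, j)) (j : ℕ) :
    Fc f w j = Fc f w' j := by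
  unfold Fc
  congr 3
  funext a
  exact arc_congr _ _ _ (h a)

theorem Sf_free (f : MvPolynomial (Fin n) K) (W : Set (Pt K (Fin n)))
    (E : Set (AlgebraicClosure K)) (i q : ℕ) (hN : N = i + q)
    (z w : Pt K (Fin (n + 2) × Fin (N + 1)))
    (h : ∀ p, p ∉ ({(Fin.natAdd n 0, ⟨i, by omega⟩)} : Finset (Fin (n + 2) × Fin (N + 1))) →
      p ∉ F1 n N i q → w p = z p) (hz : z ∈ Sf f W E i q) : w ∈ Sf f W E i q := by
  obtain ⟨h1, h2, h3, h4⟩ := hz
  have hx : ∀ a j, w (Fin.castAdd 2 a, j) = z (Fin.castAdd 2 a, j) := by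
    intro a j
    apply h
    · rw [Finset.mem_singleton]
      intro h'
      exact castAdd_ne _ _ (Prod.ext_iff.1 h').1
    · rw [mem_F1]
      rintro (⟨h', -⟩ | ⟨h', -⟩)
      · exact castAdd_ne _ _ h'
      · exact castAdd_ne _ _ h'
  refine ⟨?_, ?_, ?_, ?_⟩
  · simp only [hx]
    exact h1
  · intro j hj
    rw [Fc_congr f w z hx]
    exact h2 j hj
  · intro j hj
    have := h3 j hj
    rw [Yc_of_lt _ _ (by omega)] at this ⊢
    rw [h _ ?_ ?_, this]
    · rw [Finset.mem_singleton]
      intro h'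
      have := congrArg Fin.val (Prod.ext_iff.1 h').2
      simp only at this
      omega
    · rw [mem_F1]
      rintro (⟨-, h'⟩ | ⟨h', -⟩)
      · simp only at h'
        omega
      · exact natAdd01 h'
  · intro l hl
    have := h4 l hl
    rw [Zc_of_lt _ _ (by omega)] at this ⊢
    rw [h _ ?_ ?_]
    · exact this
    · rw [Finset.mem_singleton]
      intro h'
      exact natAdd01 (Prod.ext_iff.1 h').1.symm
    · rw [mem_F1]
      rintro (⟨h', -⟩ | ⟨-, h'⟩)
      · exact natAdd01 h'.symm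
      · simp only at h'
        omega

theorem Sz_chi {R : Type} [CommRing R] (M : Meas K R) (f : MvPolynomial (Fin n) K)
    {W : Set (Pt K (Fin n))} (hW : Constr W) (i : ℕ) :
    M.χ _ (Sz (N := N) f W i) = M.χ _ (Tl f W i N) := by
  refine M.iso _ _ (constr_Sz f hW i) (constr_Tl f hW i)
    (fun w p => w (Fin.castAdd 2 p.1, p.2))
    (fun z p => Fin.addCases (fun a => z (a, p.2)) (fun _ => 0) p.1)
    (regularOn_poly (fun p => IsPF.coord _) _) (regularOn_poly (fun p => ?_) _) ?_ ?_ ?_ ?_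
  · obtain ⟨a, j⟩ := p
    refine Fin.addCases (fun a => ?_) (fun b => ?_) a
    · simp only [Fin.addCases_left]
      exact IsPF.coord _
    · simp only [Fin.addCases_right]
      exact IsPF.zero
  · rintro w ⟨h1, h2, -, -⟩
    exact ⟨h1, h2⟩
  · rintro z ⟨h1, h2⟩
    refine ⟨?_, ?_, ?_, ?_⟩
    · simp only [Fin.addCases_left]
      exact h1
    · intro j hj
      have := h2 j hj
      unfold Fc
      rw [← this]
      congr 3
      funext a
      ext k
      simp only [arc, PowerSeries.coeff_mk, Fin.addCases_left]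
    · intro j
      simp only [Fin.addCases_right]
    · intro j
      simp only [Fin.addCases_right]
  · rintro w ⟨-, -, h3, h4⟩
    funext p
    obtain ⟨a, j⟩ := p
    refine Fin.addCases (fun a => ?_) (fun b => ?_) a
    · simp only [Fin.addCases_left]
    · simp only [Fin.addCases_right]
      fin_cases b
      · exact (h3 j).symm
      · exact (h4 j).symm
  · rintro z -
    funext p
    simp only [Fin.addCases_left]

theorem onea : TaskONEA := by
  classical
  intro K _ R _ M n f W E hW hE i N hiN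
  obtain ⟨q, hN⟩ := Nat.exists_eq_add_of_le hiN
  have hi1 : i < N + 1 := by omega
  have hq1 : q < N + 1 := by omega
  rw [St_top f W E i q hN, St_all M f hW hE i q hN (q + 1) le_rfl]
  set F0 : Finset (Fin (n + 2) × Fin (N + 1)) := {(Fin.natAdd n 0, ⟨i, by omega⟩)} with hF0
  have e1 : St (N := N) f W E i q 0 = Sf f W E i q ∩ {z | ∀ p ∈ F0, z p ≠ 0} := by
    ext w
    simp only [St, Base, Sf, hF0, Set.mem_ofPred_eq, Set.mem_inter_iff, Finset.mem_singleton,
      forall_eq, not_lt_zero, if_false, Yc_of_lt w i hi1]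
    tauto
  have hd : Disjoint F0 (F1 n N i q) := by
    rw [Finset.disjoint_left]
    intro p hp hp'
    rw [hF0, Finset.mem_singleton] at hp
    rw [mem_F1, hp] at hp'
    rcases hp' with ⟨-, h'⟩ | ⟨h', -⟩
    · simp only at h'
      omega
    · exact natAdd01 h'
  rw [e1, Pool.Agent.W417.MT.Free.main M (Sf f W E i q) F0 (F1 n N i q) (fun _ => 0) hd
    (constr_Sf f hW hE i q) (fun z w => Sf_free f W E i q hN z w), card_F1 i q hN]
  have e2 : Sf f W E i q ∩ {z : Pt K (Fin (n + 2) × Fin (N + 1)) | ∀ p ∈ F0 ∪ F1 n N i q,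
        z p = algebraMap K _ 0} =
      {z | Function.update z (Fin.natAdd n 1, ⟨q, hq1⟩) (algebraMap K _ 0) ∈ Sz (N := N) f W i ∧
        (fun _ => z (Fin.natAdd n 1, ⟨q, hq1⟩)) ∈ ({a | a 0 ∈ E} : Set (Pt K (Fin 1)))} := by
    ext w
    have hx : (fun a => Function.update w (Fin.natAdd n 1, (⟨q, hq1⟩ : Fin (N + 1)))
        (algebraMap K (AlgebraicClosure K) 0) (Fin.castAdd 2 a, 0)) =
        fun a => w (Fin.castAdd 2 a, 0) := by
      funext a
      rw [Function.update_of_ne]
      intro h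
      exact castAdd_ne _ _ (Prod.ext_iff.1 h).1
    have hy : ∀ j, Function.update w (Fin.natAdd n 1, (⟨q, hq1⟩ : Fin (N + 1)))
        (algebraMap K (AlgebraicClosure K) 0) (Fin.natAdd n 0, j) = w (Fin.natAdd n 0, j) := by
      intro j
      rw [Function.update_of_ne]
      intro h
      exact natAdd01 (Prod.ext_iff.1 h).1
    simp only [Sz, Sf, Set.mem_ofPred_eq, Set.mem_inter_iff, hx, hy, Fc_upd]
    constructor
    · rintro ⟨⟨h1, h2, h3, h4⟩, h5⟩
      refine ⟨⟨h1, h2, ?_, ?_⟩, ?_⟩
      · intro j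
        rcases lt_trichotomy (j : ℕ) i with h | h | h
        · have := h3 _ h
          rwa [Yc_of_lt _ _ j.2] at this
        · have : (Fin.natAdd n 0, j) ∈ F0 := by
            rw [hF0, Finset.mem_singleton]
            exact Prod.ext rfl (Fin.ext h)
          rw [h5 _ (Finset.mem_union_left _ this), map_zero]
        · have : (Fin.natAdd n 0, j) ∈ F1 n N i q := (mem_F1 i q _).2 (Or.inl ⟨rfl, h⟩)
          rw [h5 _ (Finset.mem_union_right _ this), map_zero]
      · intro j
        by_cases hj : j = ⟨q, hq1⟩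
        · rw [hj, Function.update_self, map_zero]
        · rw [Function.update_of_ne (fun h => hj (Prod.ext_iff.1 h).2)]
          rcases lt_trichotomy (j : ℕ) q with h | h | h
          · have := h4 _ (by omega : (j : ℕ) < q + 1)
            rw [Zc_of_lt _ _ j.2, EE_lt _ _ _ h] at this
            exact this
          · exact absurd (Fin.ext h) hj
          · have : (Fin.natAdd n 1, j) ∈ F1 n N i q := (mem_F1 i q _).2 (Or.inr ⟨rfl, h⟩)
            rw [h5 _ (Finset.mem_union_right _ this), map_zero]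
      · have := h4 q (by omega)
        rwa [Zc_of_lt _ _ hq1, EE_self] at this
    · rintro ⟨⟨h1, h2, h3, h4⟩, h5⟩
      have h6 : ∀ j, j ≠ ⟨q, hq1⟩ → w (Fin.natAdd n 1, j) = 0 := by
        intro j hj
        have := h4 j
        rwa [Function.update_of_ne (fun h => hj (Prod.ext_iff.1 h).2)] at this
      refine ⟨⟨h1, h2, ?_, ?_⟩, ?_⟩
      · intro j hj
        rw [Yc_of_lt _ _ (by omega)]
        exact h3 _
      · intro l hl
        rw [Zc_of_lt _ _ (by omega)]
        by_cases hlq : l = q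
        · subst hlq
          rw [EE_self]
          exact h5
        · rw [EE_lt _ _ _ (by omega)]
          exact h6 _ (fun h => hlq (congrArg Fin.val h))
      · intro p hp
        rw [map_zero]
        rcases Finset.mem_union.1 hp with hp | hp
        · rw [hF0, Finset.mem_singleton] at hp
          rw [hp]
          exact h3 _
        · obtain ⟨a, j⟩ := p
          rcases (mem_F1 i q _).1 hp with ⟨h', h''⟩ | ⟨h', h''⟩
          · simp only at h'
            rw [h']
            exact h3 _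
          · simp only at h' h''
            rw [h']
            apply h6
            intro h
            rw [h] at h''
            simp at h''
  rw [e2, Pool.Agent.W417.MT.Free.coord M (Sz (N := N) f W i) _ 0 {a | a 0 ∈ E}
    (constr_Sz f hW i) (hE _ (IsPF.coord _)) (fun z hz => by rw [map_zero]; exact hz.2.2.2 _),
    Sz_chi M f hW i, hF0, Finset.card_singleton]
  ring

end Pool.Agent.Y366.MS
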